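import Pool.Agent.Q64.IG.Seq
import Pool.Agent.Y327.Full

/-! # Uniform version of the theorem on invariant factors -/

open Filter Topology Matrix H715R2 Polynomial

namespace Pool.Agent.Q64.IG

open Pool.Agent.Q64.IF

variable {d : ℕ}

lemma propInt_iff (g : Matrix (Fin d) (Fin d) ℝ) :
    PropInt g ↔ ∃ c : ℝ, c ≠ 0 ∧ ∃ P : MvPolynomial (Fin d) ℤ,
      MvPolynomial.map (Int.castRingHom ℝ) P = MvPolynomial.C c * polyF g := by
  unfold PropInt
  refine exists_congr fun c => and_congr_right fun _ => ?_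
  constructor
  · intro h
    have h1 : MvPolynomial.C c * polyF g ∈ Set.range (MvPolynomial.map (Int.castRingHom ℝ)) := by
      rw [MvPolynomial.mem_range_map_iff_coeffs_subset]
      intro x hx
      obtain ⟨m, -, rfl⟩ := MvPolynomial.mem_coeffs_iff.1 hx
      obtain ⟨z, hz⟩ := h m
      rw [MvPolynomial.smul_eq_C_mul] at hz
      exact ⟨z, by rw [hz]; simp⟩
    obtain ⟨P, hP⟩ := h1
    exact ⟨P, hP⟩
  · rintro ⟨P, hP⟩ m
    refine ⟨MvPolynomial.coeff m P, ?_⟩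
    rw [MvPolynomial.smul_eq_C_mul, ← hP, MvPolynomial.coeff_map]
    simp

lemma polyF_diag (a : Fin d → ℝ) (g : Matrix (Fin d) (Fin d) ℝ) :
    polyF (diagonal a * g) = MvPolynomial.C (∏ i, a i) * polyF g := by
  unfold polyF
  rw [map_prod, ← Finset.prod_mul_distrib]
  refine Finset.prod_congr rfl fun i _ => ?_
  rw [Finset.mul_sum]
  refine Finset.sum_congr rfl fun j _ => ?_
  rw [diagonal_mul, map_mul, mul_assoc]

lemma polyF_zR (g : Matrix (Fin d) (Fin d) ℝ) (γ : Matrix (Fin d) (Fin d) ℤ) :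
    polyF (g * zR γ) = MvPolynomial.bind₁ (fun j : Fin d => ∑ k : Fin d,
      MvPolynomial.C ((γ j k : ℤ) : ℝ) * MvPolynomial.X k) (polyF g) := by
  unfold polyF
  rw [map_prod]
  refine Finset.prod_congr rfl fun i _ => ?_
  rw [map_sum]
  simp only [map_mul, MvPolynomial.bind₁_X_right, MvPolynomial.bind₁_C_right, Finset.mul_sum]
  rw [Finset.sum_comm]
  refine Finset.sum_congr rfl fun k _ => ?_
  rw [Matrix.mul_apply, map_sum, Finset.sum_mul]
  refine Finset.sum_congr rfl fun j _ => ?_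
  rw [map_mul, mul_assoc]
  rfl

lemma PropInt.trans {g : Matrix (Fin d) (Fin d) ℝ} (h : PropInt g) {a : Fin d → ℝ}
    (ha : ∏ i, a i ≠ 0) (γ : Matrix (Fin d) (Fin d) ℤ) : PropInt (diagonal a * g * zR γ) := by
  rw [propInt_iff] at h ⊢
  obtain ⟨c, hc, P, hP⟩ := h
  refine ⟨(∏ i, a i)⁻¹ * c, mul_ne_zero (inv_ne_zero ha) hc, MvPolynomial.bind₁
    (fun j : Fin d => ∑ k : Fin d, MvPolynomial.C (γ j k : ℤ) * MvPolynomial.X k) P, ?_⟩
  rw [polyF_zR, polyF_diag, MvPolynomial.map_bind₁, hP]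
  have h1 : (fun i : Fin d => MvPolynomial.map (Int.castRingHom ℝ)
      (∑ k : Fin d, MvPolynomial.C (γ i k : ℤ) * MvPolynomial.X k)) =
      fun j : Fin d => ∑ k : Fin d, MvPolynomial.C ((γ j k : ℤ) : ℝ) * MvPolynomial.X k := by
    funext i
    rw [map_sum]
    refine Finset.sum_congr rfl fun k _ => ?_
    rw [map_mul, MvPolynomial.map_C, MvPolynomial.map_X]
    simp
  rw [h1]
  simp only [map_mul, MvPolynomial.bind₁_C_right]
  rw [← mul_assoc]
  congr 1
  rw [← map_mul, ← map_mul]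
  congr 1
  rw [mul_right_comm, inv_mul_cancel₀ ha, one_mul]

/-- **Isolation.** -/
theorem iso_propInt (hd : 3 ≤ d) {h : Matrix (Fin d) (Fin d) ℝ} (hdet : h.det ≠ 0) {ν : ℝ}
    (hν : 0 < ν) (hs : ℕ → Matrix (Fin d) (Fin d) ℝ) (hs1 : ∀ n, HasNu (hs n) ν)
    (hs2 : Tendsto hs atTop (𝓝 h)) (hP : PropInt h) : ∃ n, PropInt (hs n) := by
  classical
  have hd0 : 0 < d := by omega
  have hnu : HasNu h ν := HasNu.of_tendsto hs1 hs2
  have hnz : ∀ p : Fin d → ℤ, p ≠ 0 → FF h (iR p) ≠ 0 := by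
    intro p hp h0
    have h1 := hnu p hp
    rw [h0, abs_zero] at h1
    exact absurd h1 (not_le.2 hν)
  obtain ⟨A, -, hA1, -, hA2⟩ := Pool.Agent.H905R2.Opp.oppA h hd0 hdet hP hnz
  obtain ⟨lam, hlam, hAg⟩ := Y327.eig_of_opp hdet hA1 hA2
  obtain ⟨K, hfin, hrank, s, hs', hmem⟩ := exists_alg_row hdet A lam hlam hAg ⟨0, hd0⟩
  obtain ⟨hNF, D, hD⟩ := build_dat hd h hdet ⟨0, hd0⟩ s hs' K hrank hmem (by
    intro m hm
    by_contra hm0
    have h2 := hnz m hm0
    apply h2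
    rw [FF_eq]
    have h3 : (h *ᵥ iR m) ⟨0, hd0⟩ = 0 := hm
    exact Finset.prod_eq_zero (Finset.mem_univ _) h3)
  exact isolation_seq D hν hs hs1 (by rw [hD]; exact hs2)

/-- `d` is prime and the matrix is not scalar, or the matrix generates a field of degree `d`
without proper intermediate fields -/
def Prim (σ : Matrix (Fin d) (Fin d) ℚ) : Prop :=
  (d.Prime ∧ ∀ c : ℚ, σ ≠ c • 1) ∨ (Irreducible (minpoly ℚ σ) ∧ (minpoly ℚ σ).natDegree = d ∧
    ∀ q : ℚ[X], (minpoly ℚ (aeval σ q)).natDegree = 1 ∨ (minpoly ℚ (aeval σ q)).natDegree = d)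

/-- **Key theorem.** -/
theorem key (hd : 3 ≤ d) {σ : Matrix (Fin d) (Fin d) ℚ} (hσ : Prim σ) {ν : ℝ} (hν : 0 < ν)
    {h : Matrix (Fin d) (Fin d) ℝ} (hdet : h.det ≠ 0) (hs : ℕ → Matrix (Fin d) (Fin d) ℝ)
    (hs1 : ∀ n, HasNu (hs n) ν) (hs2 : Tendsto hs atTop (𝓝 h)) (I : Finset (Fin d))
    (hI : I.Nonempty) (hI' : I ≠ Finset.univ)
    (hinv : ∀ i ∈ I, h i ᵥ* rQ d σ ∈ Submodule.span ℝ ((fun i => h i) '' (I : Set (Fin d)))) :
    ∃ n, PropInt (hs n) := by
  have hnu : HasNu h ν := HasNu.of_tendsto hs1 hs2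
  have hself : h ∈ closure (Orb h) := subset_closure (mem_orb_self h)
  have hno : ¬ Inf0 h := by
    intro h0
    obtain ⟨x, hx, hx2⟩ := h0 ν hν
    exact absurd (hnu x hx) (not_le.2 hx2)
  refine iso_propInt hd hdet hν hs hs1 hs2 ?_
  rcases hσ with ⟨hp, hsc⟩ | ⟨hirr, hdeg, hfield⟩
  · have hcop : Nat.Coprime I.card d := by
      refine Nat.Coprime.symm ((Nat.Prime.coprime_iff_not_dvd hp).2 fun hdvd => ?_)
      have h1 := Nat.le_of_dvd (Finset.card_pos.2 hI) hdvd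
      have h2 : I.card < d := by
        have h3 := Finset.card_lt_univ_of_notMem (s := I) (x := (by
          exact (not_forall.1 fun hall => hI' (Finset.eq_univ_iff_forall.2 hall)).choose)) (by
          exact (not_forall.1 fun hall => hI' (Finset.eq_univ_iff_forall.2 hall)).choose_spec)
        rwa [Fintype.card_fin] at h3
      omega
    rcases main_coprime hd hdet hself I hI hI' hcop σ (Or.inr ⟨hp, hsc⟩) hinv with h1 | h1
    · exact absurd h1 hno
    · exact h1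
  · rcases main_irred hd hdet hself I hI hI' σ hirr hdeg hinv with h1 | h1 | ⟨h', -, q, h2, h3, -⟩
    · exact absurd h1 hno
    · exact h1
    · rcases hfield q with h4 | h4 <;> omega

end Pool.Agent.Q64.IG
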