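import Pool.Agent.Q64.IG.Links

/-! # Norm forms have many links -/

open Filter Topology Matrix H715R2 Polynomial

namespace Pool.Agent.Q64.IG

open Pool.Agent.Q64.IF

variable {d : ℕ}

lemma zR_pow (A : Matrix (Fin d) (Fin d) ℤ) (k : ℕ) : zR (A ^ k) = (zR A) ^ k := by
  induction k with
  | zero => rw [pow_zero, pow_zero, zR_one]
  | succ k ih => rw [pow_succ, pow_succ, zR_mul, ih]

lemma zR_injective : Function.Injective (zR : Matrix (Fin d) (Fin d) ℤ → _) := by
  intro A B h
  ext i j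
  have h1 : ((A i j : ℤ) : ℝ) = ((B i j : ℤ) : ℝ) := congrFun (congrFun h i) j
  exact_mod_cast h1

lemma zR_eq_rQ (A : Matrix (Fin d) (Fin d) ℤ) : zR A = rQ d (A.map (Int.cast : ℤ → ℚ)) := by
  ext i j
  rw [rQ_apply]
  simp [zR]

/-- a norm form has infinitely many reduced bases in a coset -/
theorem conv (hd : 3 ≤ d) {g : Matrix (Fin d) (Fin d) ℝ} (hg : g.det ≠ 0) {c : ℝ} (hc : 0 < c)
    (hnu : HasNu g c) (hP : PropInt g) :
    ∃ σ : Matrix (Fin d) (Fin d) ℚ, (∀ q : ℚ, σ ≠ q • 1) ∧ ∃ C : ℝ,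
      {P : Matrix (Fin d) (Fin d) ℤ | Red C g P ∧ zR P * rQ d σ = rQ d σ * zR P}.Infinite := by
  classical
  have hd0 : 0 < d := by omega
  have hu : IsUnit g.det := isUnit_iff_ne_zero.2 hg
  have hnz : ∀ p : Fin d → ℤ, p ≠ 0 → FF g (iR p) ≠ 0 := by
    intro p hp h0
    have h1 := hnu p hp
    rw [h0, abs_zero] at h1
    exact absurd h1 (not_le.2 hc)
  obtain ⟨A, hAdet, hA1, -, hA2⟩ := Pool.Agent.H905R2.Opp.oppA g hd0 hg hP hnz
  obtain ⟨lam, hlam, hAg⟩ := Y327.eig_of_opp hg hA1 hA2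
  have hAg' : zR A * g⁻¹ = g⁻¹ * diagonal lam := by
    have h1 : g⁻¹ * (g * zR A) * g⁻¹ = g⁻¹ * (diagonal lam * g) * g⁻¹ := by rw [hAg]
    rw [← Matrix.mul_assoc, Matrix.nonsing_inv_mul _ hu, Matrix.one_mul, ← Matrix.mul_assoc,
      Matrix.mul_assoc (g⁻¹ * diagonal lam), Matrix.mul_nonsing_inv _ hu, Matrix.mul_one] at h1
    exact h1
  have hpow : ∀ k : ℕ, zR (A ^ k) * g⁻¹ = g⁻¹ * diagonal fun j => lam j ^ k := by
    intro k
    induction k with
    | zero => simp [zR_one]
    | succ k ih =>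
      rw [pow_succ, zR_mul, Matrix.mul_assoc, hAg', ← Matrix.mul_assoc, ih, Matrix.mul_assoc,
        diagonal_mul_diagonal]
      simp only [pow_succ]
  have hprod : ∏ j, lam j = 1 := by
    have h1 := congrArg Matrix.det hAg
    rw [det_mul, det_mul, det_diagonal, det_zR, hAdet, Int.cast_one, mul_one] at h1
    have h2 : (∏ j, lam j) * g.det = 1 * g.det := by rw [← h1, one_mul]
    exact mul_right_cancel₀ hg h2
  have hlam0 : ∀ j, lam j ≠ 0 := by
    intro j h0
    rw [Finset.prod_eq_zero (Finset.mem_univ j) h0] at hprod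
    exact zero_ne_one hprod
  -- some eigenvalue is not a root of unity
  obtain ⟨j₁, hj₁⟩ : ∃ j, |lam j| ≠ 1 := by
    by_contra hcon
    push Not at hcon
    have h1 : ∀ j, lam j = 1 ∨ lam j = -1 := fun j => eq_or_eq_neg_of_abs_eq (hcon j)
    have e0 : Fin d := ⟨0, by omega⟩
    have n01 : lam ⟨0, by omega⟩ ≠ lam ⟨1, by omega⟩ := fun h => by
      have := hlam h; simp at this
    have n02 : lam ⟨0, by omega⟩ ≠ lam ⟨2, by omega⟩ := fun h => by
      have := hlam h; simp at this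
    have n12 : lam ⟨1, by omega⟩ ≠ lam ⟨2, by omega⟩ := fun h => by
      have := hlam h; simp at this
    rcases h1 ⟨0, by omega⟩ with a | a <;> rcases h1 ⟨1, by omega⟩ with b | b <;>
      rcases h1 ⟨2, by omega⟩ with e | e <;> rw [a, b] at n01 <;> rw [a, e] at n02 <;>
      rw [b, e] at n12 <;> simp_all
  have hinj : Function.Injective fun k : ℕ => A ^ k := by
    intro k l hkl
    simp only at hkl
    have h1 := hpow k
    rw [hkl, hpow l] at h1
    have h2 : diagonal (fun j => lam j ^ l) = diagonal fun j => lam j ^ k := by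
      have h3 := congrArg (g * ·) h1
      simp only [← Matrix.mul_assoc, Matrix.mul_nonsing_inv _ hu, Matrix.one_mul] at h3
      exact h3
    have h3 := congrFun (diagonal_injective h2) j₁
    have h4 : |lam j₁| ^ l = |lam j₁| ^ k := by rw [← abs_pow, ← abs_pow, h3]
    exact (pow_right_injective₀ (abs_pos.2 (hlam0 j₁)) hj₁ h4).symm
  have hvec : ∀ k j, ‖vec g (A ^ k) j‖ = |lam j| ^ k * ‖vec g 1 j‖ := by
    intro k j
    have h1 : vec g (A ^ k) j = lam j ^ k • vec g 1 j := by
      funext i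
      rw [vec, hpow, mul_diagonal, Pi.smul_apply, smul_eq_mul, vec, zR_one, Matrix.one_mul,
        mul_comm]
    rw [h1, norm_smul, norm_pow, Real.norm_eq_abs]
  refine ⟨A.map (Int.cast : ℤ → ℚ), ?_, ∏ j, ‖vec g 1 j‖, ?_⟩
  · intro q hq
    have h1 : zR A = (q : ℝ) • (1 : Matrix (Fin d) (Fin d) ℝ) := by
      rw [zR_eq_rQ, hq]
      ext i j
      rw [rQ_apply]
      by_cases hij : i = j
      · subst hij; simp
      · simp [hij]
    have h2 : ∀ j, lam j = q := by
      intro j
      have h3 := congrFun (congrFun hAg j)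
      rw [h1, Matrix.mul_smul, Matrix.mul_one] at h3
      obtain ⟨l, hl⟩ : ∃ l, g j l ≠ 0 := by
        by_contra hcon
        push Not at hcon
        exact hg (Matrix.det_eq_zero_of_row_eq_zero j hcon)
      have h4 := h3 l
      rw [Matrix.smul_apply, smul_eq_mul, diagonal_mul] at h4
      exact (mul_right_cancel₀ hl h4).symm
    have h5 := hlam ((h2 ⟨0, by omega⟩).trans (h2 ⟨1, by omega⟩).symm)
    simp at h5
  · refine Set.infinite_of_injective_forall_mem hinj fun k => ⟨⟨?_, ?_⟩, ?_⟩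
    · rw [det_pow, hAdet, one_pow, abs_one]
    · refine le_of_eq ?_
      rw [Finset.prod_congr rfl fun j _ => hvec k j, Finset.prod_mul_distrib, Finset.prod_pow, ← Finset.abs_prod, hprod, abs_one, one_pow,
        one_mul]
    · rw [zR_pow, ← zR_eq_rQ]
      exact ((Commute.refl (zR A)).pow_left k).eq

end Pool.Agent.Q64.IG
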