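import Pool.Agent.Q64.IG.Conv

/-! # Directions -/

open Filter Topology Matrix H715R2 Polynomial

namespace Pool.Agent.Q64.IG

open Pool.Agent.Q64.IF

variable {d : ℕ}

lemma aeval_mulVec (M : Matrix (Fin d) (Fin d) ℝ) (v : Fin d → ℝ) (θ : ℝ) (hv : M *ᵥ v = θ • v)
    (q : ℚ[X]) : (aeval M q) *ᵥ v = (aeval θ q) • v := by
  have hpow : ∀ n : ℕ, (M ^ n) *ᵥ v = θ ^ n • v := by
    intro n
    induction n with
    | zero => simp
    | succ n ih => rw [pow_succ, ← mulVec_mulVec, hv, mulVec_smul, ih, smul_smul, pow_succ, mul_comm]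
  induction q using Polynomial.induction_on' with
  | add p q hp hq => rw [map_add, map_add, add_mulVec, hp, hq, add_smul]
  | monomial n a =>
    rw [aeval_monomial, aeval_monomial]
    have h1 : (algebraMap ℚ (Matrix (Fin d) (Fin d) ℝ)) a = (a : ℝ) • (1 : Matrix _ _ ℝ) := by
      ext i j
      by_cases hij : i = j
      · subst hij; simp [Matrix.algebraMap_matrix_apply]
      · simp [Matrix.algebraMap_matrix_apply, hij]
    rw [h1, Matrix.smul_mul, Matrix.one_mul, smul_mulVec, hpow, smul_smul]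
    rfl

/-- a vector with coordinates in a real field of degree at most `d` is an eigenvector of a rational
matrix -/
lemma exists_sigma_gen (hd : 2 ≤ d) (K : IntermediateField ℚ ℝ) [FiniteDimensional ℚ K]
    (hK : Module.finrank ℚ K ≤ d) (v : Fin d → ℝ) (hv : ∀ j, v j ∈ K) :
    ∃ σ : Matrix (Fin d) (Fin d) ℚ, ((minpoly ℚ σ).natDegree = d ∨
      (¬ LinearIndependent ℚ v ∧ ∀ c : ℚ, σ ≠ c • 1)) ∧ ∃ θ : ℝ, rQ d σ *ᵥ v = θ • v := by
  classical
  let w : Fin d → K := fun j => ⟨v j, hv j⟩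
  have hvw : v = fun j => algebraMap K ℝ (w j) := rfl
  by_cases hli : LinearIndependent ℚ w
  · have hcard : Fintype.card (Fin d) = Module.finrank ℚ K := by
      refine le_antisymm hli.fintype_card_le_finrank ?_
      rw [Fintype.card_fin]; exact hK
    have hne : Nonempty (Fin d) := ⟨⟨0, by omega⟩⟩
    let b := basisOfLinearIndependentOfCardEqFinrank hli hcard
    have hb : ∀ j, b j = w j := fun j => by simp [b]
    obtain ⟨θ, hθ⟩ := Field.exists_primitive_element ℚ K
    have hθdeg : (minpoly ℚ θ).natDegree = Module.finrank ℚ K :=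
      (Field.primitive_element_iff_minpoly_natDegree_eq ℚ θ).1 hθ
    set σ : Matrix (Fin d) (Fin d) ℚ := Matrix.of fun i j => b.repr (θ * w i) j with hσ
    have hσij : ∀ i j, σ i j = b.repr (θ * w i) j := fun _ _ => rfl
    have heig : rQ d σ *ᵥ v = (θ : ℝ) • v := by
      funext i
      have h1 : ∑ j, algebraMap K ℝ (b.repr (θ * w i) j • b j) = (θ : ℝ) * v i := by
        rw [← map_sum, b.sum_repr]; rfl
      rw [mulVec, dotProduct, Pi.smul_apply, smul_eq_mul]
      refine Eq.trans (Finset.sum_congr rfl fun j _ => ?_) h1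
      rw [rQ_apply, hσij, hb, Algebra.smul_def, RingHom.map_mul]
      rfl
    refine ⟨σ, Or.inl ?_, (θ : ℝ), heig⟩
    have hint : IsIntegral ℚ σ := Matrix.isIntegral σ
    have hm0 : minpoly ℚ σ ≠ 0 := minpoly.ne_zero hint
    refine le_antisymm ?_ ?_
    · have h1 := Polynomial.natDegree_le_of_dvd (Matrix.minpoly_dvd_charpoly σ)
        σ.charpoly_monic.ne_zero
      rwa [σ.charpoly_natDegree_eq_dim, Fintype.card_fin] at h1
    · have hv0 : v ≠ 0 := by
        intro h0
        have h1 := hli.ne_zero (Classical.arbitrary (Fin d))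
        apply h1
        have h2 := congrFun h0 (Classical.arbitrary (Fin d))
        exact Subtype.ext h2
      have h1 := aeval_mulVec (rQ d σ) v θ heig (minpoly ℚ σ)
      have h10 : aeval (rQ d σ) (minpoly ℚ σ) = 0 := by
        rw [← aeval_map_algebraMap ℝ, ← rQ_aeval, minpoly.aeval, map_zero]
      rw [h10, zero_mulVec] at h1
      have h2 : aeval (θ : ℝ) (minpoly ℚ σ) = 0 := (smul_eq_zero.1 h1.symm).resolve_right hv0
      have h3 : aeval θ (minpoly ℚ σ) = 0 := by
        have h4 : aeval (algebraMap K ℝ θ) (minpoly ℚ σ) = 0 := h2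
        rw [aeval_algebraMap_apply] at h4
        exact (map_eq_zero _).1 h4
      have h5 := Polynomial.natDegree_le_of_dvd (minpoly.dvd ℚ θ h3) hm0
      rw [hθdeg, ← hcard, Fintype.card_fin] at h5
      exact h5
  · have hnot : ¬ LinearIndependent ℚ v := by
      intro h
      apply hli
      have h1 : v = (Algebra.linearMap K ℝ).restrictScalars ℚ ∘ w := rfl
      rw [h1] at h
      exact LinearIndependent.of_comp _ h
    obtain ⟨g, hg, i, hi⟩ := Fintype.not_linearIndependent_iff.1 hli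
    refine ⟨Matrix.of fun _ j => g j, Or.inr ⟨hnot, ?_⟩, 0, ?_⟩
    · intro c hc
      obtain ⟨k, hk⟩ : ∃ k : Fin d, k ≠ i := by
        have : Nontrivial (Fin d) := Fin.nontrivial_iff_two_le.2 hd
        exact exists_ne i
      have h1 : (Matrix.of fun (_ : Fin d) j => g j) k i =
        (c • (1 : Matrix (Fin d) (Fin d) ℚ)) k i := by rw [hc]
      rw [Matrix.of_apply, Matrix.smul_apply, one_apply_ne hk, smul_zero] at h1
      exact hi h1
    · funext k
      have h1 := congrArg (algebraMap K ℝ) hg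
      rw [map_sum, map_zero] at h1
      rw [mulVec, dotProduct, Pi.smul_apply, smul_eq_mul, zero_mul]
      refine Eq.trans (Finset.sum_congr rfl fun j _ => ?_) h1
      rw [rQ_apply, Matrix.of_apply, Algebra.smul_def, RingHom.map_mul]
      rfl

lemma norm_mulVec_le (M : Matrix (Fin d) (Fin d) ℝ) (x : Fin d → ℝ) :
    ‖M *ᵥ x‖ ≤ (∑ i, ∑ j, |M i j|) * ‖x‖ := by
  rw [pi_norm_le_iff_of_nonneg (mul_nonneg (Finset.sum_nonneg fun i _ => Finset.sum_nonneg
    fun j _ => abs_nonneg _) (norm_nonneg _))]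
  intro i
  rw [mulVec, dotProduct, Real.norm_eq_abs]
  calc |∑ j, M i j * x j| ≤ ∑ j, |M i j * x j| := Finset.abs_sum_le_sum_abs _ _
    _ ≤ ∑ j, |M i j| * ‖x‖ := by
        refine Finset.sum_le_sum fun j _ => ?_
        rw [abs_mul]
        exact mul_le_mul_of_nonneg_left (norm_le_pi_norm x j) (abs_nonneg _)
    _ = (∑ j, |M i j|) * ‖x‖ := by rw [Finset.sum_mul]
    _ ≤ _ := by
        refine mul_le_mul_of_nonneg_right ?_ (norm_nonneg _)
        exact Finset.single_le_sum (f := fun i => ∑ j, |M i j|)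
          (fun i _ => Finset.sum_nonneg fun j _ => abs_nonneg _) (Finset.mem_univ i)

/-- **Directions.** -/
theorem dir (hd : 3 ≤ d) {V c : ℝ} (hV : 0 < V) (hc : 0 < c) (C : ℝ)
    (K : IntermediateField ℚ ℝ) [FiniteDimensional ℚ K] (hK : Module.finrank ℚ K ≤ d)
    (v : Fin d → ℝ) (hv : ∀ j, v j ∈ K) (hv' : LinearIndependent ℚ v ∨ d.Prime) (j : Fin d) :
    ∃ ε : ℝ, 0 < ε ∧ ∀ (g : Matrix (Fin d) (Fin d) ℝ) (P : Matrix (Fin d) (Fin d) ℤ) (t : ℝ),
      |g.det| = V → HasNu g c → Red C g P →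
      ‖vec g P j - t • v‖ ≤ ε * ‖vec g P j‖ → PropInt g := by
  classical
  obtain ⟨σ, hσ, θ, hθ⟩ := exists_sigma_gen (by omega) K hK v hv
  have hne : ({j} : Finset (Fin d)) ≠ Finset.univ := by
    intro h1
    have h2 := congrArg Finset.card h1
    rw [Finset.card_singleton, Finset.card_univ, Fintype.card_fin] at h2
    omega
  obtain ⟨ε, hε, h⟩ := near hd hV hc C (σ := σ) {j} (Finset.singleton_nonempty j) hne
    (Or.inl ⟨by rw [Finset.card_singleton]; exact Nat.coprime_one_left d, by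
      rcases hσ with h1 | ⟨h1, h2⟩
      · exact Or.inl h1
      · exact Or.inr ⟨hv'.resolve_left h1, h2⟩⟩)
  set M : ℝ := (∑ i, ∑ l, |rQ d σ i l|) + |θ| + 1 with hM
  have hS : 0 ≤ ∑ i, ∑ l, |rQ d σ i l| :=
    Finset.sum_nonneg fun i _ => Finset.sum_nonneg fun l _ => abs_nonneg _
  have hM0 : 0 < M := by
    have := abs_nonneg θ
    rw [hM]; linarith
  refine ⟨ε / M, by positivity, fun g P t hg hnu hP hnear => h g P hg hnu hP ?_⟩
  intro i hi
  rw [Finset.mem_singleton] at hi
  subst hi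
  refine ⟨θ • vec g P i, Submodule.smul_mem _ _ (Submodule.subset_span ⟨i, by simp, rfl⟩), ?_⟩
  have h1 : rQ d σ *ᵥ vec g P i - θ • vec g P i =
      rQ d σ *ᵥ (vec g P i - t • v) - θ • (vec g P i - t • v) := by
    rw [mulVec_sub, mulVec_smul, hθ, smul_sub, smul_comm t θ v]
    abel
  rw [h1]
  calc ‖rQ d σ *ᵥ (vec g P i - t • v) - θ • (vec g P i - t • v)‖
      ≤ ‖rQ d σ *ᵥ (vec g P i - t • v)‖ + ‖θ • (vec g P i - t • v)‖ := norm_sub_le _ _
    _ ≤ (∑ i, ∑ l, |rQ d σ i l|) * ‖vec g P i - t • v‖ + |θ| * ‖vec g P i - t • v‖ := by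
        refine add_le_add (norm_mulVec_le _ _) ?_
        rw [norm_smul, Real.norm_eq_abs]
    _ ≤ M * ‖vec g P i - t • v‖ := by
        rw [hM]
        nlinarith [norm_nonneg (vec g P i - t • v)]
    _ ≤ M * (ε / M * ‖vec g P i‖) := mul_le_mul_of_nonneg_left hnear hM0.le
    _ = ε * ‖vec g P i‖ := by field_simp

end Pool.Agent.Q64.IG
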