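import Pool.Agent.Q64.IG.Red

/-! # Links between reduced bases -/

open Filter Topology Matrix H715R2

namespace Pool.Agent.Q64.IG

open Pool.Agent.Q64.IF

variable {d : ℕ}

/-- the sum of the absolute values of the entries -/
def nrm (M : Matrix (Fin d) (Fin d) ℝ) : ℝ := ∑ i, ∑ j, |M i j|

lemma nrm_nonneg (M : Matrix (Fin d) (Fin d) ℝ) : 0 ≤ nrm M :=
  Finset.sum_nonneg fun i _ => Finset.sum_nonneg fun j _ => abs_nonneg _

lemma le_nrm (M : Matrix (Fin d) (Fin d) ℝ) (i j : Fin d) : |M i j| ≤ nrm M := by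
  refine le_trans (Finset.single_le_sum (f := fun j => |M i j|)
    (fun j _ => abs_nonneg _) (Finset.mem_univ j)) ?_
  exact Finset.single_le_sum (f := fun i => ∑ j, |M i j|)
    (fun i _ => Finset.sum_nonneg fun j _ => abs_nonneg _) (Finset.mem_univ i)

lemma nrm_smul (r : ℝ) (M : Matrix (Fin d) (Fin d) ℝ) : nrm (r • M) = |r| * nrm M := by
  simp only [nrm, Matrix.smul_apply, smul_eq_mul, abs_mul, Finset.mul_sum]

lemma continuous_nrm : Continuous (nrm : Matrix (Fin d) (Fin d) ℝ → ℝ) := by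
  unfold nrm
  refine continuous_finsetSum _ fun i _ => continuous_finsetSum _ fun j _ => ?_
  exact (continuous_apply_apply i j).abs

/-- **Links between reduced bases of counterexamples.** -/
theorem links_near (hd : 3 ≤ d) {V c : ℝ} (hV : 0 < V) (hc : 0 < c) (C : ℝ)
    {σ : Matrix (Fin d) (Fin d) ℚ} (hσ : Prim σ) :
    ∃ R η : ℝ, 0 < η ∧ ∀ (g : Matrix (Fin d) (Fin d) ℝ) (P Q : Matrix (Fin d) (Fin d) ℤ),
      |g.det| = V → HasNu g c → ¬ PropInt g → Red C g P → Red C g (Q * P) →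
        nrm (zR Q) ≤ R ∨ η * nrm (zR Q) ≤ nrm (zR Q * rQ d σ - rQ d σ * zR Q) := by
  classical
  by_contra hcon
  push Not at hcon
  have hd0 : 0 < d := by omega
  have hnef : Nonempty (Fin d) := ⟨⟨0, hd0⟩⟩
  choose g P Q hgV hnu hint hP hQP hlarge hcomm using fun n : ℕ =>
    hcon (n : ℝ) (1 / ((n : ℝ) + 1)) (by positivity)
  have hgd : ∀ n, (g n).det ≠ 0 := by
    intro n h0
    have := hgV n
    rw [h0, abs_zero] at this
    exact hV.ne this
  obtain ⟨φ₁, U, hφ₁, hU0, hlimU, -⟩ := seq_lim hd hV hc g hgV hnu hint P hP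
  obtain ⟨φ₂, W, hφ₂, hW0, hlimW, hW⟩ := seq_lim hd hV hc (fun n => g (φ₁ n))
    (fun n => hgV (φ₁ n)) (fun n => hnu (φ₁ n)) (fun n => hint (φ₁ n))
    (fun n => Q (φ₁ n) * P (φ₁ n)) (fun n => hQP (φ₁ n))
  have hUu : IsUnit U.det := isUnit_iff_ne_zero.2 hU0
  have hWu : IsUnit W.det := isUnit_iff_ne_zero.2 hW0
  set ψ : ℕ → ℕ := fun n => φ₁ (φ₂ n) with hψ
  have hψm : StrictMono ψ := hφ₁.comp hφ₂
  -- the ratios
  set r : ℕ → Fin d → ℝ := fun n j =>
    ‖vec (g (ψ n)) (Q (ψ n) * P (ψ n)) j‖ / ‖vec (g (ψ n)) (P (ψ n)) j‖ with hr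
  have hrpos : ∀ n j, 0 < r n j := fun n j =>
    div_pos (vec_pos (hgd _) (hQP (ψ n)).1 j) (vec_pos (hgd _) (hP (ψ n)).1 j)
  set ρ : ℕ → ℝ := fun n => ∑ j, r n j with hρ
  have hρpos : ∀ n, 0 < ρ n := fun n => Finset.sum_pos (fun j _ => hrpos n j) Finset.univ_nonempty
  set δ : ℕ → Fin d → ℝ := fun n j => r n j / ρ n with hδ
  have hδ0 : ∀ n j, 0 ≤ δ n j := fun n j => (div_pos (hrpos n j) (hρpos n)).le
  have hδsum : ∀ n, ∑ j, δ n j = 1 := by
    intro n
    rw [hδ]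
    simp only
    rw [← Finset.sum_div, div_self (hρpos n).ne']
  have hδ1 : ∀ n j, δ n j ≤ 1 := by
    intro n j
    rw [← hδsum n]
    exact Finset.single_le_sum (f := fun j => δ n j) (fun j _ => hδ0 n j) (Finset.mem_univ j)
  obtain ⟨ε, -, φ₃, hφ₃, hlimδ⟩ := (isCompact_Icc (a := (0 : Fin d → ℝ)) (b := 1)).tendsto_subseq
    (x := δ) (fun n => ⟨fun j => hδ0 n j, fun j => hδ1 n j⟩)
  have hlimδj : ∀ j, Tendsto (fun n => δ (φ₃ n) j) atTop (𝓝 (ε j)) := fun j =>
    tendsto_pi_nhds.1 hlimδ j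
  have hε0 : ∀ j, 0 ≤ ε j := fun j => ge_of_tendsto (hlimδj j) (Eventually.of_forall fun n => hδ0 _ _)
  have hεsum : ∑ j, ε j = 1 := by
    have h1 := tendsto_finsetSum Finset.univ fun j _ => hlimδj j
    refine tendsto_nhds_unique h1 ?_
    simp only [hδsum]
    exact tendsto_const_nhds
  -- the matrices
  set X : ℕ → Matrix (Fin d) (Fin d) ℝ := fun n =>
    UU (g (ψ (φ₃ n))) (Q (ψ (φ₃ n)) * P (ψ (φ₃ n))) * diagonal (δ (φ₃ n)) *
      (UU (g (ψ (φ₃ n))) (P (ψ (φ₃ n))))⁻¹ with hX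
  have hXlim : Tendsto X atTop (𝓝 (W * diagonal ε * U⁻¹)) := by
    refine Tendsto.mul (Tendsto.mul ?_ ?_) ?_
    · exact hlimW.comp hφ₃.tendsto_atTop
    · exact ((continuous_id.matrix_diagonal).tendsto ε).comp hlimδ
    · exact tendsto_inv_mat' ((hlimU.comp hφ₂.tendsto_atTop).comp hφ₃.tendsto_atTop) hU0
  have hQX : ∀ n, zR (Q (ψ (φ₃ n))) = ρ (φ₃ n) • X n := by
    intro n
    set m := φ₃ n with hm
    have hP1 := (hP (ψ m)).1
    have hQ1 := (hQP (ψ m)).1
    have hg0 := hgd (ψ m)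
    have h1 := UU_mul hg0 hP1
    have h2 := UU_mul hg0 hQ1
    have hUn : IsUnit (UU (g (ψ m)) (P (ψ m))).det := isUnit_iff_ne_zero.2 (UU_det_ne hg0 hP1)
    have h3 : zR (Q (ψ m)) * UU (g (ψ m)) (P (ψ m)) *
        diagonal (fun j => ‖vec (g (ψ m)) (P (ψ m)) j‖) =
        UU (g (ψ m)) (Q (ψ m) * P (ψ m)) *
          diagonal (fun j => ‖vec (g (ψ m)) (Q (ψ m) * P (ψ m)) j‖) := by
      rw [h2, Matrix.mul_assoc, h1, zR_mul, Matrix.mul_assoc]
    have h4 : zR (Q (ψ m)) * UU (g (ψ m)) (P (ψ m)) =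
        UU (g (ψ m)) (Q (ψ m) * P (ψ m)) * diagonal (r m) := by
      have h5 := congrArg (· * diagonal (fun j => ‖vec (g (ψ m)) (P (ψ m)) j‖⁻¹)) h3
      simp only [Matrix.mul_assoc, diagonal_mul_diagonal] at h5
      have h6 : (diagonal fun j => ‖vec (g (ψ m)) (P (ψ m)) j‖ *
          ‖vec (g (ψ m)) (P (ψ m)) j‖⁻¹ : Matrix (Fin d) (Fin d) ℝ) = 1 := by
        rw [← diagonal_one]
        congr 1
        funext j
        exact mul_inv_cancel₀ (vec_pos hg0 hP1 j).ne'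
      rw [h6, Matrix.mul_one] at h5
      rw [h5]
      rfl
    have h7 : diagonal (r m) = ρ m • diagonal (δ m) := by
      rw [← diagonal_smul]
      congr 1
      funext j
      simp only [hδ, Pi.smul_apply, smul_eq_mul]
      rw [mul_div_cancel₀ _ (hρpos m).ne']
    rw [hX]
    simp only
    rw [← hm, ← Matrix.smul_mul, ← Matrix.mul_smul, ← h7, ← h4, Matrix.mul_assoc,
      Matrix.mul_nonsing_inv _ hUn, Matrix.mul_one]
  -- the limit commutes with `σ`
  have hXc : ∀ n, nrm (X n * rQ d σ - rQ d σ * X n) ≤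
      1 / (((ψ (φ₃ n) : ℕ) : ℝ) + 1) * nrm (X n) := by
    intro n
    have h1 := (hcomm (ψ (φ₃ n))).le
    rw [hQX n, Matrix.smul_mul, Matrix.mul_smul, ← smul_sub, nrm_smul, nrm_smul,
      abs_of_pos (hρpos (φ₃ n))] at h1
    have h2 := hρpos (φ₃ n)
    rw [mul_left_comm] at h1
    exact le_of_mul_le_mul_left h1 h2
  have hlimc : W * diagonal ε * U⁻¹ * rQ d σ = rQ d σ * (W * diagonal ε * U⁻¹) := by
    have h1 : Tendsto (fun n => X n * rQ d σ - rQ d σ * X n) atTop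
        (𝓝 (W * diagonal ε * U⁻¹ * rQ d σ - rQ d σ * (W * diagonal ε * U⁻¹))) :=
      (hXlim.mul tendsto_const_nhds).sub (tendsto_const_nhds.mul hXlim)
    have h2 := (continuous_nrm.tendsto _).comp h1
    have h3 : Tendsto (fun n => 1 / (((ψ (φ₃ n) : ℕ) : ℝ) + 1) * nrm (X n)) atTop
        (𝓝 (0 * nrm (W * diagonal ε * U⁻¹))) := by
      refine Tendsto.mul ?_ ((continuous_nrm.tendsto _).comp hXlim)
      exact (tendsto_one_div_add_atTop_nhds_zero_nat (𝕜 := ℝ)).comp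
        (hψm.comp hφ₃).tendsto_atTop
    rw [zero_mul] at h3
    have h4 : nrm (W * diagonal ε * U⁻¹ * rQ d σ - rQ d σ * (W * diagonal ε * U⁻¹)) = 0 :=
      le_antisymm (le_of_tendsto_of_tendsto' h2 h3 fun n => hXc n) (nrm_nonneg _)
    ext i j
    have h5 := le_nrm (W * diagonal ε * U⁻¹ * rQ d σ - rQ d σ * (W * diagonal ε * U⁻¹)) i j
    rw [h4] at h5
    exact sub_eq_zero.1 (abs_eq_zero.1 (le_antisymm h5 (abs_nonneg _)))
  have hkey : (W⁻¹ * rQ d σ * W) * diagonal ε = diagonal ε * (U⁻¹ * rQ d σ * U) := by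
    have h1 : W⁻¹ * (W * diagonal ε * U⁻¹ * rQ d σ) * U =
        W⁻¹ * (rQ d σ * (W * diagonal ε * U⁻¹)) * U := by rw [hlimc]
    have h2 : W⁻¹ * (W * diagonal ε * U⁻¹ * rQ d σ) * U = diagonal ε * (U⁻¹ * rQ d σ * U) := by
      simp only [← Matrix.mul_assoc]
      rw [Matrix.nonsing_inv_mul _ hWu, Matrix.one_mul]
    have h3 : W⁻¹ * (rQ d σ * (W * diagonal ε * U⁻¹)) * U = (W⁻¹ * rQ d σ * W) * diagonal ε := by
      simp only [Matrix.mul_assoc]
      rw [Matrix.nonsing_inv_mul _ hUu, Matrix.mul_one]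
    rw [← h2, ← h3, h1]
  set J : Finset (Fin d) := Finset.univ.filter fun j => ε j ≠ 0 with hJ
  have hJne : J.Nonempty := by
    by_contra h1
    rw [Finset.not_nonempty_iff_eq_empty] at h1
    have h2 : ∀ j, ε j = 0 := by
      intro j
      by_contra h3
      have h4 : j ∈ J := Finset.mem_filter.2 ⟨Finset.mem_univ _, h3⟩
      rw [h1] at h4
      exact absurd h4 (Finset.notMem_empty _)
    simp only [h2, Finset.sum_const_zero] at hεsum
    exact zero_ne_one hεsum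
  by_cases hJu : J = Finset.univ
  · -- all ratios are comparable: the links are bounded
    have hεne : ∀ j, ε j ≠ 0 := by
      intro j
      have h1 : j ∈ J := by rw [hJu]; exact Finset.mem_univ _
      exact (Finset.mem_filter.1 h1).2
    set Y := W * diagonal ε * U⁻¹ with hY
    have hYd : 0 < |Y.det| := by
      rw [abs_pos, hY, det_mul, det_mul, det_diagonal]
      refine mul_ne_zero (mul_ne_zero hW0 (Finset.prod_ne_zero_iff.2 fun j _ => hεne j)) ?_
      exact ((Matrix.isUnit_nonsing_inv_det_iff).2 hUu).ne_zero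
    have hdet : Tendsto (fun n => |(X n).det|) atTop (𝓝 |Y.det|) :=
      (continuous_abs.tendsto _).comp (((Continuous.matrix_det continuous_id).tendsto Y).comp hXlim)
    have hent : ∀ i j, ∀ᶠ n in atTop, |X n i j| < |Y i j| + 1 := by
      intro i j
      have h1 : Tendsto (fun n => |X n i j|) atTop (𝓝 |Y i j|) :=
        (continuous_abs.tendsto _).comp (tendsto_pi_nhds.1 (tendsto_pi_nhds.1 hXlim i) j)
      exact h1.eventually (gt_mem_nhds (by linarith))
    have hent' := Filter.eventually_all.2 fun i => Filter.eventually_all.2 fun j => hent i j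
    have hev := hdet.eventually (lt_mem_nhds (half_lt_self hYd))
    set B : ℝ := ∑ i, ∑ j, (|Y i j| + 1) with hB
    have hB0 : 0 ≤ B := Finset.sum_nonneg fun i _ => Finset.sum_nonneg fun j _ => by positivity
    obtain ⟨n₁, hn₁⟩ := exists_nat_gt ((1 + 2 / |Y.det|) * B)
    obtain ⟨n, hn, hn2, hn3⟩ := (hent'.and (hev.and (eventually_ge_atTop n₁))).exists
    have h1 : ρ (φ₃ n) ^ d * |(X n).det| = 1 := by
      have h2 := congrArg Matrix.det (hQX n)
      rw [det_smul, Fintype.card_fin, det_zR] at h2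
      have h3 := congrArg abs h2
      rw [abs_mul, abs_of_pos (pow_pos (hρpos _) d)] at h3
      rw [← h3]
      have hd1 := (hQP (ψ (φ₃ n))).1
      have hd2 := (hP (ψ (φ₃ n))).1
      rw [det_mul, abs_mul, hd2, mul_one] at hd1
      exact_mod_cast hd1
    have h2 : ρ (φ₃ n) ≤ 1 + 2 / |Y.det| := by
      by_contra h3
      push Not at h3
      have h4 : 0 < 2 / |Y.det| := by positivity
      have h5 : 1 ≤ ρ (φ₃ n) := by linarith
      have h6 : ρ (φ₃ n) ≤ ρ (φ₃ n) ^ d := le_self_pow₀ h5 (by omega)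
      have h7 : 2 / |Y.det| < ρ (φ₃ n) ^ d := by linarith
      have h8 : 2 / |Y.det| * (|Y.det| / 2) = 1 := by field_simp
      have h9 : 2 / |Y.det| * (|Y.det| / 2) < ρ (φ₃ n) ^ d * |(X n).det| :=
        mul_lt_mul'' h7 hn2 h4.le (by positivity)
      rw [h1, h8] at h9
      exact lt_irrefl _ h9
    have h3 := hlarge (ψ (φ₃ n))
    have h4 : (n : ℝ) < nrm (zR (Q (ψ (φ₃ n)))) := by
      refine lt_of_le_of_lt ?_ h3
      exact_mod_cast (hψm.comp hφ₃).le_apply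
    rw [hQX n, nrm_smul, abs_of_pos (hρpos _)] at h4
    have hXB : nrm (X n) ≤ B := by
      rw [hB, nrm]
      exact Finset.sum_le_sum fun i _ => Finset.sum_le_sum fun j _ => (hn i j).le
    have h5 : ρ (φ₃ n) * nrm (X n) ≤ (1 + 2 / |Y.det|) * B :=
      mul_le_mul h2 hXB (nrm_nonneg _) (by positivity)
    have h6 : (n₁ : ℝ) ≤ n := by exact_mod_cast hn3
    linarith
  · obtain ⟨j, hj, k, hk, hne⟩ := hW J hJne hJu σ (Or.inr hσ)
    have hj' : ε j ≠ 0 := (Finset.mem_filter.1 hj).2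
    have hk' : ε k = 0 := by
      by_contra h1
      exact hk (Finset.mem_filter.2 ⟨Finset.mem_univ _, h1⟩)
    have h1 := congrFun (congrFun hkey k) j
    rw [mul_diagonal, diagonal_mul, hk', zero_mul] at h1
    exact hne ((mul_eq_zero.1 h1).resolve_right hj')

/-- finitely many links -/
theorem links (hd : 3 ≤ d) {V c : ℝ} (hV : 0 < V) (hc : 0 < c) (C : ℝ)
    {σ : Matrix (Fin d) (Fin d) ℚ} (hσ : Prim σ) :
    {Q : Matrix (Fin d) (Fin d) ℤ | zR Q * rQ d σ = rQ d σ * zR Q ∧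
      ∃ (g : Matrix (Fin d) (Fin d) ℝ) (P : Matrix (Fin d) (Fin d) ℤ), |g.det| = V ∧ HasNu g c ∧
        ¬ PropInt g ∧ Red C g P ∧ Red C g (Q * P)}.Finite := by
  obtain ⟨R, η, hη, h⟩ := links_near hd hV hc C hσ
  obtain ⟨N, hN⟩ := exists_nat_ge |R|
  refine (Set.finite_Icc (α := Fin d → Fin d → ℤ) (fun _ _ => -(N : ℤ))
    (fun _ _ => (N : ℤ))).subset ?_
  rintro Q ⟨hcomm, g, P, h1, h2, h3, h4, h5⟩
  have hle : nrm (zR Q) ≤ N := by
    rcases h g P Q h1 h2 h3 h4 h5 with h6 | h6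
    · exact (h6.trans (le_abs_self R)).trans hN
    · rw [hcomm, sub_self] at h6
      have h7 : nrm (0 : Matrix (Fin d) (Fin d) ℝ) = 0 := by simp [nrm]
      rw [h7] at h6
      have h8 : nrm (zR Q) ≤ 0 := by
        by_contra h9
        push Not at h9
        have := mul_pos hη h9
        linarith
      exact h8.trans (Nat.cast_nonneg N)
  have hent : ∀ i j, |Q i j| ≤ (N : ℤ) := by
    intro i j
    have h6 : |((Q i j : ℤ) : ℝ)| ≤ N := (le_nrm (zR Q) i j).trans hle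
    exact_mod_cast h6
  exact ⟨fun i j => (abs_le.1 (hent i j)).1, fun i j => (abs_le.1 (hent i j)).2⟩

/-- reduced bases exist -/
theorem exists_red (hd : 3 ≤ d) {V c : ℝ} (hV : 0 < V) (hc : 0 < c) :
    ∃ C : ℝ, ∀ g : Matrix (Fin d) (Fin d) ℝ, |g.det| = V → HasNu g c → ∀ t : Fin d → ℝ,
      (∀ j, 0 < t j) → ∏ j, t j = 1 → ∃ P : Matrix (Fin d) (Fin d) ℤ, |P.det| = 1 ∧
        ∀ j, ‖vec g P j‖ ≤ C * t j := by
  classical
  obtain ⟨R, hR⟩ := exists_bound (d := d) (by omega) V c hV hc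
  have hcont : Continuous fun M : Matrix (Fin d) (Fin d) ℝ => M.adjugate :=
    Continuous.matrix_adjugate continuous_id
  have hb : ∀ p : Fin d × Fin d, ∃ B : ℝ, ∀ M ∈ {h : Matrix (Fin d) (Fin d) ℝ | ∀ i j, |h i j| ≤ R},
      ‖M.adjugate p.1 p.2‖ ≤ B := fun p =>
    (isCompact_box (d := d) R).exists_bound_of_continuousOn
      (f := fun M : Matrix (Fin d) (Fin d) ℝ => M.adjugate p.1 p.2)
      (((continuous_apply_apply p.1 p.2).comp hcont).continuousOn)
  choose B hB using hb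
  refine ⟨(∑ p, |B p|) / V, fun g hgV hnu t ht ht1 => ?_⟩
  have hg0 : g.det ≠ 0 := by
    intro h0
    rw [h0, abs_zero] at hgV
    exact hV.ne hgV
  have hgu : IsUnit g.det := isUnit_iff_ne_zero.2 hg0
  obtain ⟨γ, hγ, hbd⟩ := hR (diagonal t * g) (by rw [det_mul, det_diagonal, ht1, one_mul, hgV])
    (by
      have h1 := HasNu.orb hnu ht1 (γ := 1) (by rw [det_one]; exact isUnit_one)
      rwa [zR_one, Matrix.mul_one] at h1)
  have hγi : IsUnit (γ⁻¹).det := (Matrix.isUnit_nonsing_inv_det_iff).2 hγ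
  refine ⟨γ⁻¹, Int.isUnit_iff_abs_eq.1 hγi, fun j => ?_⟩
  set M : Matrix (Fin d) (Fin d) ℝ := diagonal t * g * zR γ with hM
  have hMdet : |M.det| = V := by
    rw [hM, det_mul, det_mul, det_diagonal, ht1, one_mul, abs_mul, hgV, det_zR,
      abs_det_of_isUnit hγ, mul_one]
  have hM0 : M.det ≠ 0 := by
    intro h0
    rw [h0, abs_zero] at hMdet
    exact hV.ne hMdet
  have hMinv : M⁻¹ = zR γ⁻¹ * g⁻¹ * diagonal fun j => (t j)⁻¹ := by
    refine Matrix.inv_eq_left_inv ?_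
    rw [hM]
    have h1 : (diagonal (fun j => (t j)⁻¹) : Matrix (Fin d) (Fin d) ℝ) * diagonal t = 1 := by
      rw [diagonal_mul_diagonal, ← diagonal_one]
      congr 1
      funext j
      exact inv_mul_cancel₀ (ht j).ne'
    calc zR γ⁻¹ * g⁻¹ * diagonal (fun j => (t j)⁻¹) * (diagonal t * g * zR γ)
        = zR γ⁻¹ * (g⁻¹ * ((diagonal (fun j => (t j)⁻¹) * diagonal t) * g)) * zR γ := by
          simp only [Matrix.mul_assoc]
      _ = 1 := by
          rw [h1, Matrix.one_mul, Matrix.nonsing_inv_mul _ hgu, Matrix.mul_one, zR_inv' hγ]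
  rw [pi_norm_le_iff_of_nonneg (mul_nonneg (div_nonneg (Finset.sum_nonneg fun p _ => abs_nonneg _)
    hV.le) (ht j).le)]
  intro i
  have h1 : vec g γ⁻¹ j i = t j * M⁻¹ i j := by
    rw [hMinv, mul_diagonal, vec]
    have := (ht j).ne'
    field_simp
  have h2 : |M⁻¹ i j| ≤ (∑ p, |B p|) / V := by
    have h3 : M⁻¹ i j = M.det⁻¹ * M.adjugate i j := by
      rw [Matrix.inv_def, Ring.inverse_eq_inv', Matrix.smul_apply, smul_eq_mul]
    rw [h3, abs_mul, abs_inv, hMdet, inv_mul_eq_div]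
    refine div_le_div_of_nonneg_right ?_ hV.le
    have h4 := hB (i, j) M hbd
    rw [Real.norm_eq_abs] at h4
    refine (h4.trans (le_abs_self _)).trans ?_
    exact Finset.single_le_sum (f := fun p => |B p|) (fun p _ => abs_nonneg _)
      (Finset.mem_univ (i, j))
  rw [h1, Real.norm_eq_abs, abs_mul, abs_of_pos (ht j), mul_comm]
  exact mul_le_mul_of_nonneg_right h2 (ht j).le

/-- **Near invariance.** -/
theorem near (hd : 3 ≤ d) {V c : ℝ} (hV : 0 < V) (hc : 0 < c) (C : ℝ)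
    {σ : Matrix (Fin d) (Fin d) ℚ} (I : Finset (Fin d)) (hI : I.Nonempty) (hI' : I ≠ Finset.univ)
    (hσ : (Nat.Coprime I.card d ∧
          ((minpoly ℚ σ).natDegree = d ∨ (d.Prime ∧ ∀ c : ℚ, σ ≠ c • 1))) ∨ Prim σ) :
    ∃ ε : ℝ, 0 < ε ∧ ∀ (g : Matrix (Fin d) (Fin d) ℝ) (P : Matrix (Fin d) (Fin d) ℤ),
      |g.det| = V → HasNu g c → Red C g P →
      (∀ i ∈ I, ∃ u ∈ Submodule.span ℝ ((fun j => vec g P j) '' (I : Set (Fin d))),
        ‖rQ d σ *ᵥ vec g P i - u‖ ≤ ε * ‖vec g P i‖) → PropInt g := by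
  classical
  by_contra hcon
  push Not at hcon
  have h0 : ∀ n : ℕ, (0 : ℝ) < 1 / ((n : ℝ) + 1) := fun n => by positivity
  choose g P hgV hnu hP hnear hint using fun n : ℕ => hcon (1 / ((n : ℝ) + 1)) (h0 n)
  have hgd : ∀ n, (g n).det ≠ 0 := by
    intro n h0
    have := hgV n
    rw [h0, abs_zero] at this
    exact hV.ne this
  obtain ⟨φ, U, hφ, hU0, hlim, hU⟩ := seq_lim hd hV hc g hgV hnu hint P hP
  have hUu : IsUnit U.det := isUnit_iff_ne_zero.2 hU0
  obtain ⟨i, hi, k, hk, hne⟩ := hU I hI hI' σ hσ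
  apply hne
  choose u hu hu2 using fun n => hnear n i hi
  -- the normalised vectors
  set v : ℕ → Fin d → ℝ := fun n => ‖vec (g (φ n)) (P (φ n)) i‖⁻¹ • u (φ n) with hv
  set w : ℕ → Fin d → ℝ := fun n => fun l => UU (g (φ n)) (P (φ n)) l i with hw
  have hlimw : Tendsto w atTop (𝓝 fun l => U l i) :=
    tendsto_pi_nhds.2 fun l => tendsto_pi_nhds.1 (tendsto_pi_nhds.1 hlim l) i
  have hdiff : Tendsto (fun n => rQ d σ *ᵥ w n - v n) atTop (𝓝 0) := by
    rw [tendsto_zero_iff_norm_tendsto_zero]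
    have h2 : Tendsto (fun n : ℕ => 1 / ((n : ℝ) + 1)) atTop (𝓝 0) :=
      tendsto_one_div_add_atTop_nhds_zero_nat
    refine squeeze_zero (fun n => norm_nonneg _) (fun n => ?_) (h2.comp hφ.tendsto_atTop)
    have hpos := vec_pos (hgd (φ n)) (hP (φ n)).1 i
    have h3 : w n = ‖vec (g (φ n)) (P (φ n)) i‖⁻¹ • vec (g (φ n)) (P (φ n)) i := by
      funext l
      simp only [hw, UU, Matrix.of_apply, Pi.smul_apply, smul_eq_mul]
      rw [div_eq_inv_mul]
    rw [h3, hv, mulVec_smul, ← smul_sub, norm_smul, norm_inv, norm_norm, inv_mul_le_iff₀ hpos,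
      mul_comm]
    exact hu2 (φ n)
  have hlimv : Tendsto (fun n => (UU (g (φ n)) (P (φ n)))⁻¹ *ᵥ v n) atTop
      (𝓝 (U⁻¹ *ᵥ (rQ d σ *ᵥ fun l => U l i))) := by
    have h1 : Tendsto v atTop (𝓝 (rQ d σ *ᵥ fun l => U l i)) := by
      have h2 : Tendsto (fun n => rQ d σ *ᵥ w n) atTop (𝓝 (rQ d σ *ᵥ fun l => U l i)) :=
        ((continuous_const.matrix_mulVec continuous_id).tendsto _).comp hlimw
      have h3 := h2.sub hdiff
      simpa using h3
    have h4 : Continuous fun p : Matrix (Fin d) (Fin d) ℝ × (Fin d → ℝ) => p.1 *ᵥ p.2 :=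
      continuous_fst.matrix_mulVec continuous_snd
    exact (h4.tendsto (U⁻¹, rQ d σ *ᵥ fun l => U l i)).comp
      ((tendsto_inv_mat' hlim hU0).prodMk_nhds h1)
  have hzero : ∀ n, ((UU (g (φ n)) (P (φ n)))⁻¹ *ᵥ v n) k = 0 := by
    intro n
    have hUn : IsUnit (UU (g (φ n)) (P (φ n))).det :=
      isUnit_iff_ne_zero.2 (UU_det_ne (hgd _) (hP _).1)
    have h1 : ∀ x ∈ Submodule.span ℝ ((fun j => vec (g (φ n)) (P (φ n)) j) '' (I : Set (Fin d))),
        ((UU (g (φ n)) (P (φ n)))⁻¹ *ᵥ x) k = 0 := by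
      intro x hx
      induction hx using Submodule.span_induction with
      | mem x hx =>
        obtain ⟨l, hl, rfl⟩ := hx
        have hpos := vec_pos (hgd (φ n)) (hP (φ n)).1 l
        have h3 : vec (g (φ n)) (P (φ n)) l = ‖vec (g (φ n)) (P (φ n)) l‖ •
            (fun m => UU (g (φ n)) (P (φ n)) m l) := by
          funext m
          simp only [UU, Matrix.of_apply, Pi.smul_apply, smul_eq_mul]
          rw [mul_div_cancel₀ _ hpos.ne']
        simp only
        rw [h3, mulVec_smul, Pi.smul_apply]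
        have h4 : ((UU (g (φ n)) (P (φ n)))⁻¹ *ᵥ fun m => UU (g (φ n)) (P (φ n)) m l) k =
            ((UU (g (φ n)) (P (φ n)))⁻¹ * UU (g (φ n)) (P (φ n))) k l := rfl
        rw [h4, Matrix.nonsing_inv_mul _ hUn, one_apply_ne, smul_zero]
        rintro rfl
        exact hk hl
      | zero => rw [mulVec_zero]; rfl
      | add x y _ _ hx hy => rw [mulVec_add, Pi.add_apply, hx, hy, add_zero]
      | smul a x _ hx => rw [mulVec_smul, Pi.smul_apply, hx, smul_zero]
    exact h1 _ (Submodule.smul_mem _ _ (hu (φ n)))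
  have h1 : (U⁻¹ * rQ d σ * U) k i = (U⁻¹ *ᵥ (rQ d σ *ᵥ fun l => U l i)) k := by
    rw [mulVec_mulVec]; rfl
  rw [h1]
  refine tendsto_nhds_unique (tendsto_pi_nhds.1 hlimv k) ?_
  simp only [hzero]
  exact tendsto_const_nhds

end Pool.Agent.Q64.IG
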