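import Pool.Agent.Q64.IG.Uni

/-! # Reduced bases -/

open Filter Topology Matrix H715R2

namespace Pool.Agent.Q64.IG

open Pool.Agent.Q64.IF

variable {d : ℕ}

/-- the images under `P` of the vectors of the basis dual to the rows of `g` -/
noncomputable def vec (g : Matrix (Fin d) (Fin d) ℝ) (P : Matrix (Fin d) (Fin d) ℤ) (j : Fin d) :
    Fin d → ℝ := fun i => (zR P * g⁻¹) i j

/-- reduced bases -/
def Red (C : ℝ) (g : Matrix (Fin d) (Fin d) ℝ) (P : Matrix (Fin d) (Fin d) ℤ) : Prop :=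
  |P.det| = 1 ∧ ∏ j, ‖vec g P j‖ ≤ C

/-- the matrix of the unit vectors -/
noncomputable def UU (g : Matrix (Fin d) (Fin d) ℝ) (P : Matrix (Fin d) (Fin d) ℤ) :
    Matrix (Fin d) (Fin d) ℝ :=
  Matrix.of fun i j => vec g P j i / ‖vec g P j‖

lemma abs_zR_det {P : Matrix (Fin d) (Fin d) ℤ} (hP : |P.det| = 1) : |(zR P).det| = 1 := by
  rw [det_zR]
  exact_mod_cast hP

lemma vec_pos {g : Matrix (Fin d) (Fin d) ℝ} (hg : g.det ≠ 0) {P : Matrix (Fin d) (Fin d) ℤ}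
    (hP : |P.det| = 1) (j : Fin d) : 0 < ‖vec g P j‖ := by
  rw [norm_pos_iff]
  intro h0
  have h1 : (zR P * g⁻¹).det = 0 := Matrix.det_eq_zero_of_column_eq_zero j fun i => congrFun h0 i
  have hu : IsUnit g.det := isUnit_iff_ne_zero.2 hg
  rw [det_mul] at h1
  rcases mul_eq_zero.1 h1 with h2 | h2
  · have h3 := abs_zR_det hP
    rw [h2, abs_zero] at h3
    exact zero_ne_one h3
  · exact ((Matrix.isUnit_nonsing_inv_det_iff).2 hu).ne_zero h2

lemma UU_mul {g : Matrix (Fin d) (Fin d) ℝ} (hg : g.det ≠ 0) {P : Matrix (Fin d) (Fin d) ℤ}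
    (hP : |P.det| = 1) :
    UU g P * diagonal (fun j => ‖vec g P j‖) = zR P * g⁻¹ := by
  ext i j
  rw [mul_diagonal, UU, Matrix.of_apply]
  exact div_mul_cancel₀ _ (vec_pos hg hP j).ne'

lemma UU_le {g : Matrix (Fin d) (Fin d) ℝ} (hg : g.det ≠ 0) {P : Matrix (Fin d) (Fin d) ℤ}
    (hP : |P.det| = 1) (i j : Fin d) : |UU g P i j| ≤ 1 := by
  rw [UU, Matrix.of_apply, abs_div, abs_of_pos (vec_pos hg hP j), div_le_one (vec_pos hg hP j)]
  exact norm_le_pi_norm (vec g P j) i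

lemma UU_det {g : Matrix (Fin d) (Fin d) ℝ} (hg : g.det ≠ 0) {P : Matrix (Fin d) (Fin d) ℤ}
    (hP : |P.det| = 1) : |(UU g P).det| * (∏ j, ‖vec g P j‖) * |g.det| = 1 := by
  have h1 := congrArg Matrix.det (UU_mul hg hP)
  rw [det_mul, det_diagonal, det_mul] at h1
  have h2 := congrArg abs h1
  rw [abs_mul, abs_mul, abs_zR_det hP, one_mul,
    abs_of_pos (Finset.prod_pos fun j _ => vec_pos hg hP j)] at h2
  rw [h2, ← abs_mul, ← det_mul, Matrix.nonsing_inv_mul _ (isUnit_iff_ne_zero.2 hg), det_one,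
    abs_one]

lemma UU_det_ne {g : Matrix (Fin d) (Fin d) ℝ} (hg : g.det ≠ 0) {P : Matrix (Fin d) (Fin d) ℤ}
    (hP : |P.det| = 1) : (UU g P).det ≠ 0 := by
  intro h0
  have := UU_det hg hP
  rw [h0, abs_zero, zero_mul, zero_mul] at this
  exact zero_ne_one this

lemma UU_inv {g : Matrix (Fin d) (Fin d) ℝ} (hg : g.det ≠ 0) {P : Matrix (Fin d) (Fin d) ℤ}
    (hP : |P.det| = 1) :
    (UU g P)⁻¹ = diagonal (fun j => ‖vec g P j‖) * g * zR P⁻¹ := by
  have hPu : IsUnit P.det := Int.isUnit_iff_abs_eq.2 hP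
  refine Matrix.inv_eq_right_inv ?_
  rw [← Matrix.mul_assoc, ← Matrix.mul_assoc, UU_mul hg hP, Matrix.mul_assoc (zR P),
    Matrix.nonsing_inv_mul _ (isUnit_iff_ne_zero.2 hg), Matrix.mul_one, zR_inv hPu]

lemma det_le_fac {A : Matrix (Fin d) (Fin d) ℝ} (hA : ∀ i j, |A i j| ≤ 1) :
    |A.det| ≤ d.factorial := by
  have h1 := Matrix.det_le (A := A) (abv := AbsoluteValue.abs) (x := 1) hA
  rw [one_pow, Fintype.card_fin, nsmul_eq_mul, mul_one] at h1
  exact h1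

lemma prod_vec_ge {g : Matrix (Fin d) (Fin d) ℝ} (hg : g.det ≠ 0) {P : Matrix (Fin d) (Fin d) ℤ}
    (hP : |P.det| = 1) : 1 / (d.factorial * |g.det|) ≤ ∏ j, ‖vec g P j‖ := by
  have h1 := UU_det hg hP
  have h2 := det_le_fac (UU_le hg hP)
  have h3 : 0 < ∏ j, ‖vec g P j‖ := Finset.prod_pos fun j _ => vec_pos hg hP j
  have h4 : 0 < |g.det| := abs_pos.2 hg
  have h5 : (0 : ℝ) < d.factorial := by positivity
  rw [div_le_iff₀ (by positivity)]
  calc (1 : ℝ) = |(UU g P).det| * (∏ j, ‖vec g P j‖) * |g.det| := h1.symm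
    _ ≤ d.factorial * (∏ j, ‖vec g P j‖) * |g.det| := by gcongr
    _ = (∏ j, ‖vec g P j‖) * (d.factorial * |g.det|) := by ring

lemma UU_inv_nu {g : Matrix (Fin d) (Fin d) ℝ} {c : ℝ} (hc : 0 < c) (hg : g.det ≠ 0)
    (hnu : HasNu g c) {P : Matrix (Fin d) (Fin d) ℤ} (hP : |P.det| = 1) :
    HasNu (UU g P)⁻¹ (c / (d.factorial * |g.det|)) := by
  have hPu : IsUnit P.det := Int.isUnit_iff_abs_eq.2 hP
  intro m hm
  rw [UU_inv hg hP, Matrix.mul_assoc, FF_diag_mul, FF_mul, zR_mulVec_iR, abs_mul,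
    abs_of_pos (Finset.prod_pos fun j _ => vec_pos hg hP j)]
  have h1 : P⁻¹ *ᵥ m ≠ 0 := by
    intro h0
    apply hm
    have h3 : P *ᵥ (P⁻¹ *ᵥ m) = 0 := by rw [h0, mulVec_zero]
    rwa [mulVec_mulVec, Matrix.mul_nonsing_inv _ hPu, one_mulVec] at h3
  have h2 := hnu _ h1
  have h3 := prod_vec_ge hg hP
  have h4 : 0 < 1 / (d.factorial * |g.det|) := by
    have := abs_pos.2 hg
    positivity
  calc c / (d.factorial * |g.det|) = 1 / (d.factorial * |g.det|) * c := by ring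
    _ ≤ _ := mul_le_mul h3 h2 hc.le (h4.le.trans h3)

lemma propInt_of_UU {g : Matrix (Fin d) (Fin d) ℝ} (hg : g.det ≠ 0)
    {P : Matrix (Fin d) (Fin d) ℤ} (hP : |P.det| = 1) (h : PropInt (UU g P)⁻¹) : PropInt g := by
  have hPu : IsUnit P.det := Int.isUnit_iff_abs_eq.2 hP
  have h1 := PropInt.trans h (a := fun j => ‖vec g P j‖⁻¹)
    (Finset.prod_ne_zero_iff.2 fun j _ => inv_ne_zero (vec_pos hg hP j).ne') P
  rw [UU_inv hg hP] at h1
  have h2 : diagonal (fun j => ‖vec g P j‖⁻¹) * (diagonal (fun j => ‖vec g P j‖) * g * zR P⁻¹) *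
      zR P = g := by
    rw [← Matrix.mul_assoc, ← Matrix.mul_assoc, diagonal_mul_diagonal, Matrix.mul_assoc,
      zR_inv' hPu, Matrix.mul_one]
    have h3 : (diagonal fun j => ‖vec g P j‖⁻¹ * ‖vec g P j‖ : Matrix (Fin d) (Fin d) ℝ) = 1 := by
      rw [← diagonal_one]
      congr 1
      funext j
      exact inv_mul_cancel₀ (vec_pos hg hP j).ne'
    rw [h3, Matrix.one_mul]
  rwa [h2] at h1

/-- limits of reduced bases of counterexamples -/
lemma seq_lim (hd : 3 ≤ d) {V c C : ℝ} (hV : 0 < V) (hc : 0 < c)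
    (g : ℕ → Matrix (Fin d) (Fin d) ℝ) (hg : ∀ n, |(g n).det| = V) (hnu : ∀ n, HasNu (g n) c)
    (hint : ∀ n, ¬ PropInt (g n))
    (P : ℕ → Matrix (Fin d) (Fin d) ℤ) (hP : ∀ n, Red C (g n) (P n)) :
    ∃ (φ : ℕ → ℕ) (U : Matrix (Fin d) (Fin d) ℝ), StrictMono φ ∧ U.det ≠ 0 ∧
      Tendsto (fun n => UU (g (φ n)) (P (φ n))) atTop (𝓝 U) ∧
      ∀ I : Finset (Fin d), I.Nonempty → I ≠ Finset.univ → ∀ σ : Matrix (Fin d) (Fin d) ℚ,
        ((Nat.Coprime I.card d ∧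
          ((minpoly ℚ σ).natDegree = d ∨ (d.Prime ∧ ∀ c : ℚ, σ ≠ c • 1))) ∨ Prim σ) →
        ∃ j ∈ I, ∃ k ∉ I, (U⁻¹ * rQ d σ * U) k j ≠ 0 := by
  classical
  have hgd : ∀ n, (g n).det ≠ 0 := by
    intro n h0
    have := hg n
    rw [h0, abs_zero] at this
    exact hV.ne this
  obtain ⟨U, -, φ, hφ, hlim⟩ := (isCompact_box (d := d) 1).tendsto_subseq
    (x := fun n => UU (g n) (P n)) (fun n => UU_le (hgd n) (hP n).1)
  have hCpos : 0 < C := (Finset.prod_pos fun j _ => vec_pos (hgd 0) (hP 0).1 j).trans_le (hP 0).2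
  have hlow : ∀ n, 1 / (C * V) ≤ |(UU (g n) (P n)).det| := by
    intro n
    have h1 := UU_det (hgd n) (hP n).1
    rw [hg n] at h1
    rw [div_le_iff₀ (by positivity), ← mul_assoc]
    rw [← h1]
    have := (hP n).2
    gcongr
  have hdlim : Tendsto (fun n => |(UU (g (φ n)) (P (φ n))).det|) atTop (𝓝 |U.det|) :=
    (continuous_abs.tendsto _).comp (((Continuous.matrix_det continuous_id).tendsto U).comp hlim)
  have hU1 : 1 / (C * V) ≤ |U.det| := ge_of_tendsto hdlim (Eventually.of_forall fun n => hlow _)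
  have hU0 : U.det ≠ 0 := by
    intro h0
    rw [h0, abs_zero] at hU1
    have : 0 < 1 / (C * V) := by positivity
    linarith
  have hUu : IsUnit U.det := isUnit_iff_ne_zero.2 hU0
  refine ⟨φ, U, hφ, hU0, hlim, fun I hI hI' σ hσ => ?_⟩
  by_contra hcon
  push Not at hcon
  have hUinv : (U⁻¹).det ≠ 0 := ((Matrix.isUnit_nonsing_inv_det_iff).2 hUu).ne_zero
  set ν : ℝ := c / (d.factorial * V) with hν
  have hν0 : 0 < ν := by positivity
  have hs1 : ∀ n, HasNu (UU (g (φ n)) (P (φ n)))⁻¹ ν := by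
    intro n
    have := UU_inv_nu hc (hgd (φ n)) (hnu (φ n)) (hP (φ n)).1
    rwa [hg (φ n)] at this
  have hs2 : Tendsto (fun n => (UU (g (φ n)) (P (φ n)))⁻¹) atTop (𝓝 U⁻¹) :=
    tendsto_inv_mat' hlim hU0
  -- the span of the rows outside `I` is invariant
  have hI2 : (Finset.univ \ I).Nonempty := by
    rw [Finset.sdiff_nonempty]
    intro h1
    exact hI' (Finset.univ_subset_iff.1 h1)
  have hI3 : (Finset.univ \ I) ≠ Finset.univ := by
    intro h1
    obtain ⟨i, hi⟩ := hI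
    have h2 := Finset.mem_univ i
    rw [← h1] at h2
    exact (Finset.mem_sdiff.1 h2).2 hi
  have hinv : ∀ k ∈ Finset.univ \ I, (U⁻¹) k ᵥ* rQ d σ ∈
      Submodule.span ℝ ((fun i => (U⁻¹) i) '' ((Finset.univ \ I : Finset (Fin d)) : Set (Fin d))) := by
    intro k hk
    have h1 : (U⁻¹) k ᵥ* rQ d σ = ∑ j, (U⁻¹ * rQ d σ * U) k j • (U⁻¹) j := by
      have h2 : U⁻¹ * rQ d σ = (U⁻¹ * rQ d σ * U) * U⁻¹ := by
        rw [Matrix.mul_assoc (U⁻¹ * rQ d σ), Matrix.mul_nonsing_inv _ hUu, Matrix.mul_one]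
      have h3 : (U⁻¹) k ᵥ* rQ d σ = (U⁻¹ * rQ d σ) k := rfl
      rw [h3]
      conv_lhs => rw [h2]
      funext l
      rw [Matrix.mul_apply, Finset.sum_apply]
      rfl
    rw [h1]
    refine Submodule.sum_mem _ fun j _ => ?_
    by_cases hj : j ∈ I
    · rw [hcon j hj k (Finset.mem_sdiff.1 hk).2, zero_smul]
      exact Submodule.zero_mem _
    · exact Submodule.smul_mem _ _ (Submodule.subset_span
        ⟨j, by exact_mod_cast Finset.mem_sdiff.2 ⟨Finset.mem_univ j, hj⟩, rfl⟩)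
  obtain ⟨n, hn⟩ : ∃ n, PropInt (UU (g (φ n)) (P (φ n)))⁻¹ := by
    rcases hσ with ⟨hco, hσ⟩ | hσ
    · have hnuU : HasNu U⁻¹ ν := HasNu.of_tendsto hs1 hs2
      refine iso_propInt hd hUinv hν0 _ hs1 hs2 ?_
      have hcard : (Finset.univ \ I).card = d - I.card := by
        rw [Finset.card_sdiff_of_subset (Finset.subset_univ I), Finset.card_univ, Fintype.card_fin]
      have hle : I.card ≤ d := by
        have := Finset.card_le_univ I
        rwa [Fintype.card_fin] at this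
      have hco' : Nat.Coprime (Finset.univ \ I).card d := by
        rw [hcard]
        exact (Nat.coprime_self_sub_left hle).2 hco
      rcases main_coprime hd hUinv (subset_closure (mem_orb_self _)) _ hI2 hI3 hco' σ hσ hinv with
        h1 | h1
      · obtain ⟨x, hx, hx2⟩ := h1 ν hν0
        exact absurd (hnuU x hx) (not_le.2 hx2)
      · exact h1
    · exact key hd hσ hν0 hUinv _ hs1 hs2 _ hI2 hI3 hinv
  exact hint _ (propInt_of_UU (hgd _) (hP _).1 hn)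

end Pool.Agent.Q64.IG
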